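import Mathlib
import Pool.Agent.Work.MP_c0f83f_co.Defs
import Pool.Agent.Work.MP_c0f83f_co.Ear

set_option autoImplicit false

namespace Pool.Agent.Results.MP_c0f83f_co.GirthSeven

open Pool.Agent.Work.MP_c0f83f_co

/-- Every finite series-parallel graph (no `K₄` minor) of girth at least `7` is 2-CBU. -/
theorem result {V : Type} [Finite V] (G : SimpleGraph V) (hK : ¬ HasK4Minor G)
    (hg : 7 ≤ G.egirth) : Is2CBU G :=
  main hK hg

end Pool.Agent.Results.MP_c0f83f_co.GirthSeven
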